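import Mathlib
import Pool.Agent.Helper73.H3

/-!
# An integrable irreducible Coxeter group different from `C₂` (MP_417677_al, Q1)

The Coxeter group of type `H₃` (diagram `o --- o -5- o`, order `120`) is isomorphic to `A₅ × C₂`,
hence to the derived subgroup of `A₅ × D`, where `D` is the dihedral group of order `8`.  So the
statement of Q1 is false.

That the Coxeter group `W(H₃)`, given by its presentation, has at most `120` elements is proved by
an enumeration of the twelve cosets of the parabolic subgroup of type `I₂(5)`.
-/

namespace Pool.Agent.Results.MP_417677_al.IntegrableH3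

/-- The Coxeter diagram of a Coxeter matrix: distinct `s`, `t` are joined exactly when
`m_{st} ≥ 3` or `m_{st} = ∞` (in Mathlib the entry `∞` is encoded as `0`). -/
def coxeterDiagram {B : Type*} (M : CoxeterMatrix B) : SimpleGraph B :=
  SimpleGraph.fromRel fun s t => 3 ≤ M s t ∨ M s t = 0

/-- **Q1 is false.** The Coxeter group of type `H₃` has connected diagram, is not isomorphic to
`C₂`, and is isomorphic to the derived subgroup of `A₅ × D`, with `D` dihedral of order `8`. -/
theorem result :
    (coxeterDiagram CoxeterMatrix.H₃).Connected ∧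
    ¬ Nonempty (CoxeterMatrix.H₃.Group ≃* Multiplicative (ZMod 2)) ∧
    Nonempty (commutator (alternatingGroup (Fin 5) × DihedralGroup 4) ≃*
      CoxeterMatrix.H₃.Group) := by
  refine ⟨?_, Helper73.H3.not_C2, Helper73.H3.main⟩
  have h01 : (coxeterDiagram CoxeterMatrix.H₃).Adj 0 1 :=
    (SimpleGraph.fromRel_adj _ _ _).2 ⟨by decide, by decide⟩
  have h12 : (coxeterDiagram CoxeterMatrix.H₃).Adj 1 2 :=
    (SimpleGraph.fromRel_adj _ _ _).2 ⟨by decide, by decide⟩
  have h : ∀ i, (coxeterDiagram CoxeterMatrix.H₃).Reachable 1 i := by
    intro i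
    fin_cases i
    · exact h01.symm.reachable
    · exact SimpleGraph.Reachable.refl _
    · exact h12.reachable
  exact ⟨fun i j => (h i).symm.trans (h j)⟩

end Pool.Agent.Results.MP_417677_al.IntegrableH3
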